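import Pool.Agent.Helper42.LS.Defs

open Filter Topology

namespace Pool.Agent.Helper42.LS

/-- valuation at least `n` -/
def pdGe (p : ℕ) (n : ℤ) (x : ℚ) : Prop := x = 0 ∨ n ≤ padicValRat p x

/-- valuation exactly `n` -/
def pdEq (p : ℕ) (n : ℤ) (x : ℚ) : Prop := x ≠ 0 ∧ padicValRat p x = n

theorem pd_ge_of_eq {p : ℕ} {n : ℤ} {x : ℚ} (h : pdEq p n x) : pdGe p n x := Or.inr h.2.ge

theorem pd_ge_mono {p : ℕ} {m n : ℤ} {x : ℚ} (h : pdGe p n x) (hmn : m ≤ n) : pdGe p m x := by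
  rcases h with h | h
  · exact Or.inl h
  · exact Or.inr (hmn.trans h)

theorem pd_eq_self {p : ℕ} {x : ℚ} (h : x ≠ 0) : pdEq p (padicValRat p x) x := ⟨h, rfl⟩

theorem pd_eq_cast {p : ℕ} {m n : ℤ} {x : ℚ} (h : pdEq p n x) (hmn : n = m) : pdEq p m x :=
  hmn ▸ h

theorem pd_eq_unique {p : ℕ} {m n : ℤ} {x : ℚ} (h : pdEq p n x) (h' : pdEq p m x) : m = n :=
  h'.2.symm.trans h.2

theorem pd_ge_add {p : ℕ} (hp : p.Prime) {n : ℤ} {x y : ℚ} (hx : pdGe p n x) (hy : pdGe p n y) :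
    pdGe p n (x + y) := by
  have := Fact.mk hp
  by_cases h0 : x + y = 0
  · exact Or.inl h0
  rcases hx with hx | hx
  · subst hx
    rw [zero_add]
    exact hy
  rcases hy with hy | hy
  · subst hy
    rw [add_zero]
    exact Or.inr hx
  exact Or.inr ((le_min hx hy).trans (padicValRat.min_le_padicValRat_add h0))

theorem pd_ge_neg {p : ℕ} {n : ℤ} {x : ℚ} (hx : pdGe p n x) : pdGe p n (-x) := by
  rcases hx with hx | hx
  · left
    rw [hx, neg_zero]
  · right
    rw [padicValRat.neg]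
    exact hx

theorem pd_eq_neg {p : ℕ} {n : ℤ} {x : ℚ} (hx : pdEq p n x) : pdEq p n (-x) :=
  ⟨neg_ne_zero.mpr hx.1, by rw [padicValRat.neg]; exact hx.2⟩

theorem pd_ge_sub {p : ℕ} (hp : p.Prime) {n : ℤ} {x y : ℚ} (hx : pdGe p n x) (hy : pdGe p n y) :
    pdGe p n (x - y) := by
  rw [sub_eq_add_neg]
  exact pd_ge_add hp hx (pd_ge_neg hy)

theorem pd_ge_mul {p : ℕ} (hp : p.Prime) {m n : ℤ} {x y : ℚ} (hx : pdGe p m x) (hy : pdGe p n y) :
    pdGe p (m + n) (x * y) := by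
  have := Fact.mk hp
  rcases hx with hx | hx
  · left
    rw [hx, zero_mul]
  rcases hy with hy | hy
  · left
    rw [hy, mul_zero]
  by_cases hx0 : x = 0
  · left
    rw [hx0, zero_mul]
  by_cases hy0 : y = 0
  · left
    rw [hy0, mul_zero]
  right
  rw [padicValRat.mul hx0 hy0]
  exact add_le_add hx hy

theorem pd_eq_mul {p : ℕ} (hp : p.Prime) {m n : ℤ} {x y : ℚ} (hx : pdEq p m x) (hy : pdEq p n y) :
    pdEq p (m + n) (x * y) := by
  have := Fact.mk hp
  refine ⟨mul_ne_zero hx.1 hy.1, ?_⟩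
  rw [padicValRat.mul hx.1 hy.1, hx.2, hy.2]

theorem pd_eq_of_mul {p : ℕ} (hp : p.Prime) {m n : ℤ} {x y : ℚ} (h : pdEq p n (x * y))
    (hy : pdEq p m y) : pdEq p (n - m) x := by
  have := Fact.mk hp
  have hx0 : x ≠ 0 := fun h0 => h.1 (by rw [h0, zero_mul])
  refine ⟨hx0, ?_⟩
  have := h.2
  rw [padicValRat.mul hx0 hy.1, hy.2] at this
  omega

theorem pd_ge_of_mul {p : ℕ} (hp : p.Prime) {m n : ℤ} {x y : ℚ} (h : pdGe p n (x * y))
    (hy : pdEq p m y) : pdGe p (n - m) x := by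
  have := Fact.mk hp
  by_cases hx0 : x = 0
  · exact Or.inl hx0
  rcases h with h | h
  · exact absurd h (mul_ne_zero hx0 hy.1)
  right
  rw [padicValRat.mul hx0 hy.1, hy.2] at h
  omega

theorem pd_eq_add {p : ℕ} (hp : p.Prime) {n : ℤ} {x y : ℚ} (hx : pdEq p n x)
    (hy : pdGe p (n + 1) y) : pdEq p n (x + y) := by
  have := Fact.mk hp
  have h0 : x + y ≠ 0 := by
    intro h0
    have hyx : y = -x := by linarith
    rcases hy with hy | hy
    · exact hx.1 (by linarith)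
    · rw [hyx, padicValRat.neg, hx.2] at hy
      omega
  refine ⟨h0, le_antisymm ?_ ?_⟩
  · by_contra hcon
    push Not at hcon
    have h1 : pdGe p (n + 1) (x + y) := Or.inr (by omega)
    have h2 : pdGe p (n + 1) x := by
      have := pd_ge_sub hp h1 hy
      rwa [add_sub_cancel_right] at this
    rcases h2 with h2 | h2
    · exact hx.1 h2
    · rw [hx.2] at h2
      omega
  · rcases pd_ge_add hp (pd_ge_of_eq hx) (pd_ge_mono hy (by omega : n ≤ n + 1)) with h | h
    · exact absurd h h0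
    · exact h

theorem pd_eq_sub {p : ℕ} (hp : p.Prime) {n : ℤ} {x y : ℚ} (hx : pdEq p n x)
    (hy : pdGe p (n + 1) y) : pdEq p n (x - y) := by
  rw [sub_eq_add_neg]
  exact pd_eq_add hp hx (pd_ge_neg hy)

theorem pd_ge_int (p : ℕ) (z : ℤ) : pdGe p 0 (z : ℚ) := by
  right
  rw [padicValRat.of_int]
  exact_mod_cast Nat.zero_le _

theorem pd_ge_sq {p : ℕ} (hp : p.Prime) {n : ℤ} {x : ℚ} (hx : pdGe p n x) :
    pdGe p (2 * n) (x ^ 2) := by
  have := pd_ge_mul hp hx hx
  rw [sq, two_mul]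
  exact this

theorem pd_eq_sq {p : ℕ} (hp : p.Prime) {n : ℤ} {x : ℚ} (hx : pdEq p n x) :
    pdEq p (2 * n) (x ^ 2) := by
  have := pd_eq_mul hp hx hx
  rw [sq, two_mul]
  exact this

theorem pd_ge_cube {p : ℕ} (hp : p.Prime) {n : ℤ} {x : ℚ} (hx : pdGe p n x) :
    pdGe p (3 * n) (x ^ 3) := by
  have := pd_ge_mul hp (pd_ge_sq hp hx) hx
  rw [show x ^ 3 = x ^ 2 * x by ring, show 3 * n = 2 * n + n by ring]
  exact this

/-! ### the norm -/

theorem pd_nr_eq {p : ℕ} {x : ℚ} (hx : x ≠ 0) : nr p x = (p : ℝ) ^ (-padicValRat p x) := by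
  unfold nr
  rw [padicNorm.eq_zpow_of_nonzero hx]
  push_cast
  rfl

theorem pd_nr_of_eq {p : ℕ} {n : ℤ} {x : ℚ} (hx : pdEq p n x) : nr p x = (p : ℝ) ^ (-n) := by
  rw [pd_nr_eq hx.1, hx.2]

theorem pd_nr_zero (p : ℕ) : nr p 0 = 0 := by
  unfold nr
  simp

theorem pd_p_gt {p : ℕ} (hp : p.Prime) : (1 : ℝ) < p := by exact_mod_cast hp.one_lt

theorem pd_nr_le {p : ℕ} (hp : p.Prime) {n : ℤ} {x : ℚ} : nr p x ≤ (p : ℝ) ^ (-n) ↔ pdGe p n x := by
  by_cases hx : x = 0
  · subst hx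
    rw [pd_nr_zero]
    refine ⟨fun _ => Or.inl rfl, fun _ => ?_⟩
    have := pd_p_gt hp
    positivity
  · rw [pd_nr_eq hx, zpow_le_zpow_iff_right₀ (pd_p_gt hp)]
    refine ⟨fun h => Or.inr (by omega), fun h => ?_⟩
    rcases h with h | h
    · exact absurd h hx
    · omega

theorem pd_nr_iff {p : ℕ} (hp : p.Prime) {n : ℤ} {x : ℚ} : nr p x = (p : ℝ) ^ (-n) ↔ pdEq p n x := by
  refine ⟨fun h => ?_, fun h => pd_nr_of_eq h⟩
  have hp1 := pd_p_gt hp
  have hx : x ≠ 0 := by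
    intro h0
    rw [h0, pd_nr_zero] at h
    have : (0 : ℝ) < (p : ℝ) ^ (-n) := by positivity
    linarith
  refine ⟨hx, ?_⟩
  rw [pd_nr_eq hx] at h
  have := zpow_right_injective₀ (by linarith : (0 : ℝ) < p) hp1.ne' h
  simp only [neg_inj] at this
  exact this

theorem pd_log_nr {p : ℕ} {n : ℤ} {x : ℚ} (hx : pdEq p n x) :
    Real.log (nr p x) = -(n : ℝ) * Real.log p := by
  rw [pd_nr_of_eq hx, Real.log_zpow]
  push_cast
  ring

theorem pd_logmax_neg {p : ℕ} (hp : p.Prime) {n : ℤ} {x : ℚ} (hx : pdEq p n x) (hn : n ≤ 0) :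
    Real.log (max (nr p x) 1) = -(n : ℝ) * Real.log p := by
  rw [max_eq_left, pd_log_nr hx]
  rw [pd_nr_of_eq hx]
  exact one_le_zpow₀ (pd_p_gt hp).le (by omega)

theorem pd_logmax_pos {p : ℕ} (hp : p.Prime) {x : ℚ} (hx : pdGe p 0 x) :
    Real.log (max (nr p x) 1) = 0 := by
  rw [max_eq_right, Real.log_one]
  have := (pd_nr_le hp).mpr hx
  simpa using this

/-! ### the component function -/

theorem pd_alp_nonpos {p N : ℕ} {n : ℤ} {x : ℚ} (hx : pdEq p n x) (hn : n ≤ 0) :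
    alp p N x = 0 := by
  unfold alp
  rw [if_neg hx.1, hx.2]
  have h1 : (n : ℝ) ≤ 0 := by exact_mod_cast hn
  exact max_eq_left ((min_le_left _ _).trans h1)

theorem pd_alp_mid {p N : ℕ} {n : ℤ} {x : ℚ} (hx : pdEq p n x) (hn : 0 ≤ n) (hN : 2 * n ≤ N) :
    alp p N x = n := by
  unfold alp
  rw [if_neg hx.1, hx.2]
  have h1 : (0 : ℝ) ≤ (n : ℝ) := by exact_mod_cast hn
  have h2 : (2 : ℝ) * n ≤ N := by exact_mod_cast hN
  rw [min_eq_left (by linarith), max_eq_right h1]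

theorem pd_alp_big {p N : ℕ} {n : ℤ} {x : ℚ} (hx : pdGe p n x) (hN : (N : ℤ) ≤ 2 * n) :
    alp p N x = N / 2 := by
  unfold alp
  by_cases h0 : x = 0
  · rw [if_pos h0]
  rw [if_neg h0]
  rcases hx with hx | hx
  · exact absurd hx h0
  have h2 : (N : ℝ) ≤ 2 * (padicValRat p x : ℝ) := by exact_mod_cast (by omega : (N : ℤ) ≤ 2 * padicValRat p x)
  have h3 : (0 : ℝ) ≤ (N : ℝ) := by positivity
  rw [min_eq_right (by linarith), max_eq_right (by linarith)]

theorem st_PD : ST_PD := by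
  intro p N hp hN c d e hc hd he X X' hG hX'
  have hc' : pdEq p 0 (4 * c) := (pd_nr_iff hp).mp (by simpa using hc)
  have hd' : pdGe p N d := (pd_nr_le hp).mp hd
  have he' : pdEq p N e := (pd_nr_iff hp).mp he
  have hNz : (1 : ℤ) ≤ N := by exact_mod_cast hN
  have h4 : pdGe p 0 (4 : ℚ) := by exact_mod_cast pd_ge_int p 4
  have h8 : pdGe p 0 (8 : ℚ) := by exact_mod_cast pd_ge_int p 8
  have hnum : (X ^ 2 - d) ^ 2 - 4 * e * (2 * X + c) = ((X ^ 2 - d) ^ 2 - 8 * (e * X)) - (4 * c) * e := by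
    ring
  have hden : 4 * (X ^ 3 + c * X ^ 2 + d * X + e)
      = (4 * c) * X ^ 2 + (4 * X ^ 3 + 4 * (d * X) + 4 * e) := by ring
  have hG4 : 4 * (X ^ 3 + c * X ^ 2 + d * X + e) ≠ 0 := mul_ne_zero (by norm_num) hG
  have hNR : (0 : ℝ) < N := by exact_mod_cast hN
  have hmain : ∀ {n : ℤ}, pdEq p n (4 * c * e) → n = N := fun h => by
    have := pd_eq_mul hp hc' he'
    exact pd_eq_unique (pd_eq_cast this (by omega)) h
  have hce : pdEq p N (4 * c * e) := pd_eq_cast (pd_eq_mul hp hc' he') (by omega)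
  by_cases hcase : pdGe p 1 X
  · by_cases hbig : ∃ w : ℤ, pdGe p w X ∧ (N : ℤ) ≤ 2 * w ∧ 1 ≤ w
    · obtain ⟨w, hw, hNw, hw1⟩ := hbig
      have hnumv : pdEq p N ((X ^ 2 - d) ^ 2 - 4 * e * (2 * X + c)) := by
        rw [hnum]
        have h1 : pdGe p (N + 1) ((X ^ 2 - d) ^ 2 - 8 * (e * X)) := by
          refine pd_ge_sub hp ?_ ?_
          · exact pd_ge_mono (pd_ge_sq hp (pd_ge_sub hp (pd_ge_mono (pd_ge_sq hp hw) hNw) hd'))
              (by omega)
          · exact pd_ge_mono (pd_ge_mul hp h8 (pd_ge_mul hp (pd_ge_of_eq he') hw)) (by omega)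
        have h2 := pd_eq_add hp (pd_eq_neg hce) h1
        rw [show (X ^ 2 - d) ^ 2 - 8 * (e * X) - 4 * c * e
          = -(4 * c * e) + ((X ^ 2 - d) ^ 2 - 8 * (e * X)) by ring]
        exact h2
      have hdenv : pdGe p N (4 * (X ^ 3 + c * X ^ 2 + d * X + e)) := by
        rw [hden]
        refine pd_ge_add hp ?_ (pd_ge_add hp (pd_ge_add hp ?_ ?_) ?_)
        · exact pd_ge_mono (pd_ge_mul hp (pd_ge_of_eq hc') (pd_ge_sq hp hw)) (by omega)
        · exact pd_ge_mono (pd_ge_mul hp h4 (pd_ge_cube hp hw)) (by omega)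
        · exact pd_ge_mono (pd_ge_mul hp h4 (pd_ge_mul hp hd' hw)) (by omega)
        · exact pd_ge_mono (pd_ge_mul hp h4 (pd_ge_of_eq he')) (by omega)
      obtain ⟨g, hg⟩ : ∃ g, pdEq p g (4 * (X ^ 3 + c * X ^ 2 + d * X + e)) := ⟨_, pd_eq_self hG4⟩
      have hgN : (N : ℤ) ≤ g := by
        rcases hdenv with h | h
        · exact absurd h hG4
        · exact h.trans hg.2.le
      have hX'v : pdEq p (N - g) X' := pd_eq_of_mul hp (hX' ▸ hnumv) hg
      have ha : alp p N X = N / 2 := pd_alp_big hw hNw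
      have ha' : alp p N X' = 0 := pd_alp_nonpos hX'v (by omega)
      refine ⟨?_, ?_⟩
      · rw [ha, ha', min_eq_right]
        · ring
        · linarith
      · unfold up
        rw [ha, ha', pd_logmax_pos hp (pd_ge_mono hw (by omega)), pd_logmax_neg hp hX'v (by omega),
          pd_log_nr hg]
        push_cast
        field_simp
        ring
    · have hX0 : X ≠ 0 := by
        intro h0
        exact hbig ⟨N, Or.inl h0, by omega, hNz⟩
      obtain ⟨w, hw⟩ : ∃ w, pdEq p w X := ⟨_, pd_eq_self hX0⟩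
      have hw1 : 1 ≤ w := by
        rcases hcase with h | h
        · exact absurd h hX0
        · exact h.trans hw.2.le
      have hwN : 2 * w < N := by
        by_contra hcon
        exact hbig ⟨w, pd_ge_of_eq hw, by omega, hw1⟩
      have hXd : pdEq p (2 * w) (X ^ 2 - d) := pd_eq_sub hp (pd_eq_sq hp hw) (pd_ge_mono hd' (by omega))
      have hXd4 : pdEq p (4 * w) ((X ^ 2 - d) ^ 2) := pd_eq_cast (pd_eq_sq hp hXd) (by omega)
      have h8e : pdGe p (N + 1) (8 * (e * X)) :=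
        pd_ge_mono (pd_ge_mul hp h8 (pd_ge_mul hp (pd_ge_of_eq he') (pd_ge_of_eq hw))) (by omega)
      have hdenv : pdEq p (2 * w) (4 * (X ^ 3 + c * X ^ 2 + d * X + e)) := by
        rw [hden]
        refine pd_eq_add hp ?_ (pd_ge_add hp (pd_ge_add hp ?_ ?_) ?_)
        · exact pd_eq_cast (pd_eq_mul hp hc' (pd_eq_sq hp hw)) (by omega)
        · exact pd_ge_mono (pd_ge_mul hp h4 (pd_ge_cube hp (pd_ge_of_eq hw))) (by omega)
        · exact pd_ge_mono (pd_ge_mul hp h4 (pd_ge_mul hp hd' (pd_ge_of_eq hw))) (by omega)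
        · exact pd_ge_mono (pd_ge_mul hp h4 (pd_ge_of_eq he')) (by omega)
      have ha : alp p N X = w := pd_alp_mid hw (by omega) (by omega)
      have hwR : (2 : ℝ) * w < N := by exact_mod_cast hwN
      have hw1R : (1 : ℝ) ≤ w := by exact_mod_cast hw1
      rcases lt_trichotomy (4 * w) N with h4w | h4w | h4w
      · have hnumv : pdEq p (4 * w) ((X ^ 2 - d) ^ 2 - 4 * e * (2 * X + c)) := by
          rw [hnum]
          exact pd_eq_sub hp (pd_eq_sub hp hXd4 (pd_ge_mono h8e (by omega)))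
            (pd_ge_mono (pd_ge_of_eq hce) (by omega))
        have hX'v : pdEq p (2 * w) X' := pd_eq_cast (pd_eq_of_mul hp (hX' ▸ hnumv) hdenv) (by omega)
        have ha' : alp p N X' = ((2 * w : ℤ) : ℝ) := pd_alp_mid hX'v (by omega) (by omega)
        have h4R : (4 : ℝ) * w < N := by exact_mod_cast h4w
        refine ⟨?_, ?_⟩
        · rw [ha, ha', min_eq_left (by linarith)]
          push_cast
          ring
        · unfold up
          rw [ha, ha', pd_logmax_pos hp (pd_ge_mono (pd_ge_of_eq hw) (by omega)),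
            pd_logmax_pos hp (pd_ge_mono (pd_ge_of_eq hX'v) (by omega)), pd_log_nr hdenv]
          push_cast
          field_simp
          ring
      · have hnumv : pdGe p N ((X ^ 2 - d) ^ 2 - 4 * e * (2 * X + c)) := by
          rw [hnum]
          exact pd_ge_sub hp (pd_ge_sub hp (pd_ge_mono (pd_ge_of_eq hXd4) (by omega))
            (pd_ge_mono h8e (by omega))) (pd_ge_of_eq hce)
        have hX'v : pdGe p (N - 2 * w) X' := pd_ge_of_mul hp (hX' ▸ hnumv) hdenv
        have ha' : alp p N X' = N / 2 := pd_alp_big hX'v (by omega)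
        have h4R : (4 : ℝ) * w = N := by exact_mod_cast h4w
        refine ⟨?_, ?_⟩
        · rw [ha, ha', min_eq_left (by linarith)]
          linarith
        · unfold up
          rw [ha, ha', pd_logmax_pos hp (pd_ge_mono (pd_ge_of_eq hw) (by omega)),
            pd_logmax_pos hp (pd_ge_mono hX'v (by omega)), pd_log_nr hdenv, ← h4R]
          push_cast
          field_simp
          ring
      · have hnumv : pdEq p N ((X ^ 2 - d) ^ 2 - 4 * e * (2 * X + c)) := by
          rw [hnum, show (X ^ 2 - d) ^ 2 - 8 * (e * X) - 4 * c * e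
            = -(4 * c * e) + ((X ^ 2 - d) ^ 2 - 8 * (e * X)) by ring]
          exact pd_eq_add hp (pd_eq_neg hce) (pd_ge_sub hp
            (pd_ge_mono (pd_ge_of_eq hXd4) (by omega)) h8e)
        have hX'v : pdEq p (N - 2 * w) X' := pd_eq_of_mul hp (hX' ▸ hnumv) hdenv
        have ha' : alp p N X' = ((N - 2 * w : ℤ) : ℝ) := pd_alp_mid hX'v (by omega) (by omega)
        have h4R : (N : ℝ) < 4 * w := by exact_mod_cast h4w
        refine ⟨?_, ?_⟩
        · rw [ha, ha', min_eq_right (by linarith)]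
          push_cast
          ring
        · unfold up
          rw [ha, ha', pd_logmax_pos hp (pd_ge_mono (pd_ge_of_eq hw) (by omega)),
            pd_logmax_pos hp (pd_ge_mono (pd_ge_of_eq hX'v) (by omega)), pd_log_nr hdenv]
          push_cast
          field_simp
          ring
  · have hX0 : X ≠ 0 := fun h0 => hcase (Or.inl h0)
    obtain ⟨w, hw⟩ : ∃ w, pdEq p w X := ⟨_, pd_eq_self hX0⟩
    have hw0 : w ≤ 0 := by
      by_contra hcon
      exact hcase (Or.inr (by rw [hw.2]; omega))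
    have hXd : pdEq p (2 * w) (X ^ 2 - d) := pd_eq_sub hp (pd_eq_sq hp hw) (pd_ge_mono hd' (by omega))
    have hXd4 : pdEq p (4 * w) ((X ^ 2 - d) ^ 2) := pd_eq_cast (pd_eq_sq hp hXd) (by omega)
    have hnumv : pdEq p (4 * w) ((X ^ 2 - d) ^ 2 - 4 * e * (2 * X + c)) := by
      rw [hnum]
      refine pd_eq_sub hp (pd_eq_sub hp hXd4 ?_) (pd_ge_mono (pd_ge_of_eq hce) (by omega))
      exact pd_ge_mono (pd_ge_mul hp h8 (pd_ge_mul hp (pd_ge_of_eq he') (pd_ge_of_eq hw))) (by omega)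
    have hdenv : pdGe p (3 * w) (4 * (X ^ 3 + c * X ^ 2 + d * X + e)) := by
      rw [hden]
      refine pd_ge_add hp ?_ (pd_ge_add hp (pd_ge_add hp ?_ ?_) ?_)
      · exact pd_ge_mono (pd_ge_mul hp (pd_ge_of_eq hc') (pd_ge_sq hp (pd_ge_of_eq hw))) (by omega)
      · exact pd_ge_mono (pd_ge_mul hp h4 (pd_ge_cube hp (pd_ge_of_eq hw))) (by omega)
      · exact pd_ge_mono (pd_ge_mul hp h4 (pd_ge_mul hp hd' (pd_ge_of_eq hw))) (by omega)
      · exact pd_ge_mono (pd_ge_mul hp h4 (pd_ge_of_eq he')) (by omega)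
    obtain ⟨g, hg⟩ : ∃ g, pdEq p g (4 * (X ^ 3 + c * X ^ 2 + d * X + e)) := ⟨_, pd_eq_self hG4⟩
    have hgN : 3 * w ≤ g := by
      rcases hdenv with h | h
      · exact absurd h hG4
      · exact h.trans hg.2.le
    have hX'v : pdEq p (4 * w - g) X' := pd_eq_of_mul hp (hX' ▸ hnumv) hg
    have ha : alp p N X = 0 := pd_alp_nonpos hw hw0
    have ha' : alp p N X' = 0 := pd_alp_nonpos hX'v (by omega)
    refine ⟨?_, ?_⟩
    · rw [ha, ha', min_eq_left (by linarith)]
      ring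
    · unfold up
      rw [ha, ha', pd_logmax_neg hp hw hw0, pd_logmax_neg hp hX'v (by omega), pd_log_nr hg]
      push_cast
      ring

end Pool.Agent.Helper42.LS
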